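import Pool.Agent.TopF.Final

/-!
# Classes of topological fields which embed in connected topological fields

The statement uses the definitions `Tame` and `IsValuationTopology` of `Pool.Agent.TopF.Final`.
-/

namespace Pool.Agent.Results.MP_a60711_al.TameFields

open Topology Filter Pool.Agent.TopF

/-- A Hausdorff topological field embeds in a connected Hausdorff topological field as soon as its
topology is in the class `Tame` (the smallest class containing all countable topological fields,
the valued fields of countable cofinality and the Hausdorff topological fields containing a Cantor
set, closed under subfields and under suprema of arbitrary families of topologies), or the field is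
a P-space, or it is completely metrizable, or its topology is given by a Krull valuation. -/
theorem result (F : Type) [Field F] [τ : TopologicalSpace F] [IsTopologicalDivisionRing F]
    [T2Space F] (h : Tame F τ ∨ CountableInterFilter (𝓝 (0 : F)) ∨
      TopologicalSpace.IsCompletelyMetrizableSpace F ∨
      ∃ (Γ₀ : Type) (_ : LinearOrderedCommGroupWithZero Γ₀) (v : Valuation F Γ₀),
        IsValuationTopology v τ) :
    ∃ (K : Type) (_ : Field K) (_ : TopologicalSpace K), IsTopologicalDivisionRing K ∧
      T2Space K ∧ ConnectedSpace K ∧ ∃ f : F →+* K, IsEmbedding f :=
  main_embedding F h

end Pool.Agent.Results.MP_a60711_al.TameFields
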